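import Pool.Agent.W_7d29a1_G.FR0

/-!
MP_7d29a1_pr, STORM X. The input (H3) of the tree lemma: superlinearity (N2) and doubling (D2) of the cost `J` for all slopes, and the
splitting of the cost of a window of `T` blocks: one block may be steep, its share in the cost of the window is small.
-/

namespace Pool.Agent.W_7d29a1_X40

open MeasureTheory ProbabilityTheory Filter Topology
open Pool.Agent.W_7d29a1_F Pool.Agent.W_7d29a1_G

variable {μ : Measure ℝ} [IsProbabilityMeasure μ]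

/-- (N2) for small slopes gives (N2) for all slopes. -/
theorem n2_all (hμ : Pool.Agent.W_7d29a1_h47.EM μ) {C a v₀ : ℝ} (hC : 0 ≤ C) (hv₀ : 0 < v₀) (hv₁ : v₀ ≤ 1 / 2)
    (ha : 0 ≤ a)
    (hN : ∀ u v : ℝ, 0 < u → u ≤ v → v ≤ v₀ → J μ u ≤ C * (u / v) ^ (1 + a) * J μ v) :
    ∃ C' : ℝ, 1 ≤ C' ∧ ∀ u v : ℝ, 0 ≤ u → u ≤ v → v ≤ 1 / 2 → J μ u ≤ C' * (u / v) ^ (1 + a) * J μ v := by
  have hB : (1 : ℝ) ≤ (1 / v₀) ^ (1 + a) := by
    refine Real.one_le_rpow ?_ (by linarith)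
    rw [le_div_iff₀ hv₀]
    linarith
  set B : ℝ := (1 / v₀) ^ (1 + a) with hBdef
  refine ⟨(C + 1) * B, by nlinarith, fun u v hu huv hv => ?_⟩
  rcases hu.eq_or_lt with h0 | h0
  · rw [← h0, J_zero hμ, zero_div, Real.zero_rpow (by linarith), mul_zero, zero_mul]
  have hv0 : 0 < v := h0.trans_le huv
  have hJv : 0 ≤ J μ v := J_nonneg hμ (by rw [abs_of_pos hv0]; exact hv)
  have hJu : 0 ≤ J μ u := J_nonneg hμ (by rw [abs_of_pos h0]; linarith)
  have hr : 0 ≤ (u / v) ^ (1 + a) := Real.rpow_nonneg (by positivity) _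
  have hX : 0 ≤ (u / v) ^ (1 + a) * J μ v := mul_nonneg hr hJv
  rcases le_total v v₀ with h1 | h1
  · have h2 := hN u v h0 huv h1
    have h3 : C * ((u / v) ^ (1 + a) * J μ v) ≤ (C + 1) * B * ((u / v) ^ (1 + a) * J μ v) :=
      mul_le_mul_of_nonneg_right (by nlinarith) hX
    nlinarith
  · rcases le_total u v₀ with h2 | h2
    · have h3 := hN u v₀ h0 h2 le_rfl
      have h4 : J μ v₀ ≤ J μ v := J_mono' hμ hv₀.le h1 hv
      have hJ0 : 0 ≤ J μ v₀ := J_nonneg hμ (by rw [abs_of_pos hv₀]; exact hv₁)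
      have h5 : (u / v₀) ^ (1 + a) ≤ (u / v) ^ (1 + a) * B := by
        rw [hBdef, ← Real.mul_rpow (by positivity) (by positivity)]
        refine Real.rpow_le_rpow (by positivity) ?_ (by linarith)
        rw [div_mul_div_comm, mul_one, div_le_div_iff₀ hv₀ (by positivity)]
        have : v * v₀ ≤ 1 * v₀ := mul_le_mul_of_nonneg_right (by linarith) hv₀.le
        nlinarith
      calc J μ u ≤ C * (u / v₀) ^ (1 + a) * J μ v₀ := h3
        _ ≤ C * ((u / v) ^ (1 + a) * B) * J μ v := by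
            refine mul_le_mul (mul_le_mul_of_nonneg_left h5 hC) h4 hJ0 ?_
            positivity
        _ ≤ (C + 1) * B * (u / v) ^ (1 + a) * J μ v := by
            have e1 : (C + 1) * B * (u / v) ^ (1 + a) * J μ v =
                C * ((u / v) ^ (1 + a) * B) * J μ v + B * ((u / v) ^ (1 + a) * J μ v) := by ring
            rw [e1]
            have : 0 ≤ B * ((u / v) ^ (1 + a) * J μ v) := mul_nonneg (by linarith) hX
            linarith
    · have h3 : J μ u ≤ J μ v := J_mono' hμ hu huv hv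
      have h5 : 1 ≤ (u / v) ^ (1 + a) * B := by
        rw [hBdef, ← Real.mul_rpow (by positivity) (by positivity)]
        refine Real.one_le_rpow ?_ (by linarith)
        rw [div_mul_div_comm, mul_one, le_div_iff₀ (by positivity)]
        nlinarith
      calc J μ u ≤ J μ v := h3
        _ ≤ ((u / v) ^ (1 + a) * B) * J μ v := by nlinarith
        _ ≤ (C + 1) * B * (u / v) ^ (1 + a) * J μ v := by
            have e1 : (C + 1) * B * (u / v) ^ (1 + a) * J μ v =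
                ((u / v) ^ (1 + a) * B) * J μ v + C * (B * ((u / v) ^ (1 + a) * J μ v)) := by ring
            rw [e1]
            have : 0 ≤ C * (B * ((u / v) ^ (1 + a) * J μ v)) :=
              mul_nonneg hC (mul_nonneg (by linarith) hX)
            linarith

/-- (D2) for small slopes gives (D2) for all slopes. -/
theorem d2_all (hμ : Pool.Agent.W_7d29a1_h47.EM μ) (hnd : Pool.Agent.W_7d29a1_h47.Nondeg μ) {C v₀ : ℝ}
    (hv₀ : 0 < v₀) (hv₁ : v₀ ≤ 1 / 2)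
    (hD : ∀ v : ℝ, 0 ≤ v → v ≤ v₀ → J μ (2 * v) ≤ C * J μ v) :
    ∃ C' : ℝ, 1 ≤ C' ∧ ∀ v : ℝ, 0 ≤ v → v ≤ 1 / 4 → J μ (2 * v) ≤ C' * J μ v := by
  have hJ0 : 0 < J μ v₀ := J_pos hμ hnd hv₀ hv₁
  have hJ1 : 0 ≤ J μ (1 / 2) := J_nonneg hμ (by rw [abs_of_pos (by norm_num)])
  refine ⟨max 1 (max C (J μ (1 / 2) / J μ v₀)), le_max_left _ _, fun v h0 h1 => ?_⟩
  have hJv : 0 ≤ J μ v := J_nonneg hμ (by rw [abs_of_nonneg h0]; linarith)
  rcases le_total v v₀ with h2 | h2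
  · refine (hD v h0 h2).trans (mul_le_mul_of_nonneg_right ?_ hJv)
    exact (le_max_left _ _).trans (le_max_right _ _)
  · have h3 : J μ (2 * v) ≤ J μ (1 / 2) := J_mono' hμ (by linarith) (by linarith) le_rfl
    have h4 : J μ v₀ ≤ J μ v := J_mono' hμ hv₀.le h2 (by linarith)
    have h5 : J μ (1 / 2) = J μ (1 / 2) / J μ v₀ * J μ v₀ := by field_simp
    calc J μ (2 * v) ≤ J μ (1 / 2) / J μ v₀ * J μ v₀ := by rw [← h5]; exact h3
      _ ≤ J μ (1 / 2) / J μ v₀ * J μ v := mul_le_mul_of_nonneg_left h4 (by positivity)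
      _ ≤ max 1 (max C (J μ (1 / 2) / J μ v₀)) * J μ v :=
          mul_le_mul_of_nonneg_right ((le_max_right _ _).trans (le_max_right _ _)) hJv

/-- Jensen for `J` with total weight at most one. -/
theorem J_sum_le (hμ : Pool.Agent.W_7d29a1_h47.EM μ) {ι : Type*} (s : Finset ι) (v : ι → ℝ) {T : ℕ} (hT : 0 < T)
    (hs : s.card ≤ T) (hv : ∀ i ∈ s, 0 ≤ v i ∧ v i ≤ 1 / 2) :
    T * J μ ((∑ i ∈ s, v i) / T) ≤ ∑ i ∈ s, J μ (v i) := by
  have hT0 : (0 : ℝ) < T := by exact_mod_cast hT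
  rcases s.eq_empty_or_nonempty with h | h
  · subst h
    simp [J_zero hμ]
  have hc : (0 : ℝ) < s.card := by exact_mod_cast h.card_pos
  have h1 : J μ ((∑ i ∈ s, v i) / s.card) ≤ (∑ i ∈ s, J μ (v i)) / s.card := by
    have h2 := (J_convex hμ).map_sum_le (t := s) (w := fun _ => (1 : ℝ) / s.card) (p := v)
      (fun i _ => by positivity) (by rw [Finset.sum_const, nsmul_eq_mul]; field_simp)
      (fun i hi => ⟨by linarith [(hv i hi).1], (hv i hi).2⟩)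
    simp only [smul_eq_mul] at h2
    rw [← Finset.mul_sum, ← Finset.mul_sum] at h2
    rw [div_eq_inv_mul, div_eq_inv_mul, ← one_div]
    exact h2
  have hA0 : 0 ≤ (∑ i ∈ s, v i) / T := div_nonneg (Finset.sum_nonneg fun i hi => (hv i hi).1) hT0.le
  have hA1 : (∑ i ∈ s, v i) / s.card ≤ 1 / 2 := by
    rw [div_le_iff₀ hc]
    calc ∑ i ∈ s, v i ≤ ∑ _i ∈ s, (1 / 2 : ℝ) := Finset.sum_le_sum fun i hi => (hv i hi).2
      _ = 1 / 2 * s.card := by rw [Finset.sum_const, nsmul_eq_mul]; ring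
  have hle : (1 : ℝ) ≤ T / s.card := by
    rw [le_div_iff₀ hc, one_mul]
    exact_mod_cast hs
  have e1 : (T : ℝ) / s.card * ((∑ i ∈ s, v i) / T) = (∑ i ∈ s, v i) / s.card := by field_simp
  have h3 := J_mul hμ hA0 hle (by rw [e1]; exact hA1)
  rw [e1] at h3
  have h4 : (T : ℝ) / s.card * J μ ((∑ i ∈ s, v i) / T) ≤ (∑ i ∈ s, J μ (v i)) / s.card := h3.trans h1
  have h5 := mul_le_mul_of_nonneg_right h4 hc.le
  have e2 : (T : ℝ) / s.card * J μ ((∑ i ∈ s, v i) / T) * s.card = T * J μ ((∑ i ∈ s, v i) / T) := by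
    field_simp
  have e3 : (∑ i ∈ s, J μ (v i)) / s.card * s.card = ∑ i ∈ s, J μ (v i) := by field_simp
  rw [e2, e3] at h5
  exact h5

/-- (H3): in a window of `T` blocks of equal duration the share of a single block `i₀` in the cost of the window is small, up to the
costs of the other blocks. -/
theorem h3 (hμ : Pool.Agent.W_7d29a1_h47.EM μ) (hnd : Pool.Agent.W_7d29a1_h47.Nondeg μ) {C a : ℝ} (hC : 1 ≤ C)
    (ha : 0 ≤ a)
    (hN : ∀ u v : ℝ, 0 ≤ u → u ≤ v → v ≤ 1 / 2 → J μ u ≤ C * (u / v) ^ (1 + a) * J μ v)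
    (hD : ∀ v : ℝ, 0 ≤ v → v ≤ 1 / 4 → J μ (2 * v) ≤ C * J μ v) :
    ∃ C₃ : ℝ, 1 ≤ C₃ ∧ ∀ T : ℕ, 8 ≤ T → ∀ (s : Finset ℕ) (v : ℕ → ℝ) (i₀ : ℕ), s.card = T → i₀ ∈ s →
      (∀ i ∈ s, |v i| ≤ 1 / 2) →
      T * J μ ((∑ i ∈ s, v i) / T) ≤ C₃ * (T : ℝ) ^ (-a) * J μ (v i₀) + C₃ * ∑ i ∈ s.erase i₀, J μ (v i) := by
  have hJ4 : 0 < J μ (1 / 4) := J_pos hμ hnd (by norm_num) (by norm_num)
  have hJ2 : 0 ≤ J μ (1 / 2) := J_nonneg hμ (by rw [abs_of_pos (by norm_num)])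
  refine ⟨C * 2 ^ a + C + J μ (1 / 2) / J μ (1 / 4), ?_, fun T hT s v i₀ hs hi₀ hv => ?_⟩
  · have h1 : 0 ≤ C * (2 : ℝ) ^ a := by positivity
    have h2 : 0 ≤ J μ (1 / 2) / J μ (1 / 4) := by positivity
    linarith
  set C₃ : ℝ := C * 2 ^ a + C + J μ (1 / 2) / J μ (1 / 4) with hC₃
  have hC2a : 0 ≤ C * (2 : ℝ) ^ a := by positivity
  have hq : 0 ≤ J μ (1 / 2) / J μ (1 / 4) := by positivity
  have hT0 : (0 : ℝ) < T := by exact_mod_cast (by omega : 0 < T)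
  have hT8 : (8 : ℝ) ≤ T := by exact_mod_cast hT
  have habs : ∀ i ∈ s, 0 ≤ |v i| ∧ |v i| ≤ 1 / 2 := fun i hi => ⟨abs_nonneg _, hv i hi⟩
  have hJi : ∀ i ∈ s, 0 ≤ J μ (v i) := fun i hi => J_nonneg hμ (hv i hi)
  have hsum0 : 0 ≤ ∑ i ∈ s.erase i₀, J μ (v i) :=
    Finset.sum_nonneg fun i hi => hJi i (Finset.mem_of_mem_erase hi)
  set S : ℝ := ∑ i ∈ s.erase i₀, |v i| with hS
  have hS0 : 0 ≤ S := Finset.sum_nonneg fun i _ => abs_nonneg _
  have hcard : (s.erase i₀).card ≤ T := by rw [Finset.card_erase_of_mem hi₀]; omega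
  have hJS : T * J μ (S / T) ≤ ∑ i ∈ s.erase i₀, J μ (v i) := by
    have h1 := J_sum_le hμ (s.erase i₀) (fun i => |v i|) (T := T) (by omega) hcard
      (fun i hi => habs i (Finset.mem_of_mem_erase hi))
    simpa only [J_abs hμ] using h1
  have hall : (∑ i ∈ s, |v i|) = |v i₀| + S := (Finset.add_sum_erase s _ hi₀).symm
  have htop : (|v i₀| + S) / T ≤ 1 / 2 := by
    rw [div_le_iff₀ hT0, ← hall]
    calc ∑ i ∈ s, |v i| ≤ ∑ _i ∈ s, (1 / 2 : ℝ) := Finset.sum_le_sum fun i hi => (habs i hi).2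
      _ = 1 / 2 * T := by rw [Finset.sum_const, nsmul_eq_mul, hs]; ring
  have hAle : |(∑ i ∈ s, v i) / T| ≤ (|v i₀| + S) / T := by
    rw [abs_div, abs_of_pos hT0, ← hall]
    exact div_le_div_of_nonneg_right (Finset.abs_sum_le_sum_abs _ _) hT0.le
  have hJA : J μ ((∑ i ∈ s, v i) / T) ≤ J μ ((|v i₀| + S) / T) := by
    rw [← J_abs hμ ((∑ i ∈ s, v i) / T)]
    exact J_mono' hμ (abs_nonneg _) hAle htop
  have hST : S / T ≤ 1 / 2 := by
    refine le_trans (div_le_div_of_nonneg_right ?_ hT0.le) htop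
    linarith [abs_nonneg (v i₀)]
  have hST0 : 0 ≤ S / T := by positivity
  have hfirst : 0 ≤ C₃ * (T : ℝ) ^ (-a) * J μ (v i₀) := by
    have : 0 ≤ (T : ℝ) ^ (-a) := Real.rpow_nonneg hT0.le _
    have h1 : 0 ≤ C₃ := by linarith
    exact mul_nonneg (mul_nonneg h1 this) (hJi i₀ hi₀)
  rcases le_total (S / T) (1 / 4) with h4 | h4
  · -- both halves in the range
    have hu0 : 0 ≤ 2 * (|v i₀| / T) := by positivity
    have hu1 : 2 * (|v i₀| / T) ≤ |v i₀| := by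
      have : |v i₀| / T ≤ |v i₀| / 2 := div_le_div_of_nonneg_left (abs_nonneg _) (by norm_num) (by linarith)
      linarith
    have hu2 : 2 * (|v i₀| / T) ≤ 1 / 2 := hu1.trans (hv i₀ hi₀)
    have hconv : J μ ((|v i₀| + S) / T) ≤ 1 / 2 * J μ (2 * (|v i₀| / T)) + 1 / 2 * J μ (2 * (S / T)) := by
      have m1 : 2 * (|v i₀| / T) ∈ Set.Icc (-(1 / 2) : ℝ) (1 / 2) := ⟨by linarith, hu2⟩
      have m2 : 2 * (S / T) ∈ Set.Icc (-(1 / 2) : ℝ) (1 / 2) := ⟨by linarith, by linarith⟩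
      have h1 := (J_convex hμ).2 m1 m2 (by norm_num : (0 : ℝ) ≤ 1 / 2) (by norm_num : (0 : ℝ) ≤ 1 / 2) (by norm_num)
      simp only [smul_eq_mul] at h1
      have e1 : 1 / 2 * (2 * (|v i₀| / T)) + 1 / 2 * (2 * (S / T)) = (|v i₀| + S) / T := by ring
      rw [e1] at h1
      exact h1
    have h5 : J μ (2 * (S / T)) ≤ C * J μ (S / T) := hD _ hST0 h4
    have h6 : J μ (2 * (|v i₀| / T)) ≤ C * (2 / T) ^ (1 + a) * J μ (v i₀) := by
      have h7 := hN (2 * (|v i₀| / T)) |v i₀| hu0 hu1 (hv i₀ hi₀)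
      rw [J_abs hμ] at h7
      refine h7.trans (mul_le_mul_of_nonneg_right (mul_le_mul_of_nonneg_left ?_ (by linarith)) (hJi i₀ hi₀))
      refine Real.rpow_le_rpow (div_nonneg hu0 (abs_nonneg _)) ?_ (by linarith)
      rcases (abs_nonneg (v i₀)).eq_or_lt with h8 | h8
      · rw [← h8, div_zero]; positivity
      · rw [div_le_iff₀ h8]
        have : 2 * (|v i₀| / T) = 2 / T * |v i₀| := by ring
        rw [this]
    have h7 : (T : ℝ) * (1 / 2) * (2 / T) ^ (1 + a) = 2 ^ a * (T : ℝ) ^ (-a) := by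
      have hr : ((2 : ℝ) / T) ^ (1 + a) = (2 / T) * (2 / T) ^ a := by
        rw [Real.rpow_add (by positivity), Real.rpow_one]
      rw [hr, Real.div_rpow (by norm_num) hT0.le, Real.rpow_neg hT0.le]
      have hTa : (T : ℝ) ^ a ≠ 0 := (Real.rpow_pos_of_pos hT0 a).ne'
      field_simp
    have hTJ : (T : ℝ) * J μ ((∑ i ∈ s, v i) / T) ≤
        T * (1 / 2 * (C * (2 / T) ^ (1 + a) * J μ (v i₀)) + 1 / 2 * (C * J μ (S / T))) := by
      refine mul_le_mul_of_nonneg_left ?_ hT0.le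
      linarith
    have e1 : (T : ℝ) * (1 / 2 * (C * (2 / T) ^ (1 + a) * J μ (v i₀)) + 1 / 2 * (C * J μ (S / T))) =
        C * ((T : ℝ) * (1 / 2) * (2 / T) ^ (1 + a)) * J μ (v i₀) + C / 2 * (T * J μ (S / T)) := by ring
    rw [e1, h7] at hTJ
    have h8 : C / 2 * (T * J μ (S / T)) ≤ C₃ * ∑ i ∈ s.erase i₀, J μ (v i) := by
      calc C / 2 * (T * J μ (S / T)) ≤ C / 2 * ∑ i ∈ s.erase i₀, J μ (v i) :=
            mul_le_mul_of_nonneg_left hJS (by linarith)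
        _ ≤ C₃ * ∑ i ∈ s.erase i₀, J μ (v i) := mul_le_mul_of_nonneg_right (by linarith) hsum0
    have h9 : C * (2 ^ a * (T : ℝ) ^ (-a)) * J μ (v i₀) ≤ C₃ * (T : ℝ) ^ (-a) * J μ (v i₀) := by
      refine mul_le_mul_of_nonneg_right ?_ (hJi i₀ hi₀)
      rw [← mul_assoc]
      exact mul_le_mul_of_nonneg_right (by linarith) (Real.rpow_nonneg hT0.le _)
    linarith
  · -- the others are steep on average
    have h5 : J μ (1 / 4) ≤ J μ (S / T) := J_mono' hμ (by norm_num) h4 hST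
    have h6 : J μ ((|v i₀| + S) / T) ≤ J μ (1 / 2) := J_mono' hμ (by positivity) htop le_rfl
    have h7 : J μ (1 / 2) = J μ (1 / 2) / J μ (1 / 4) * J μ (1 / 4) := by field_simp
    have h8 : (T : ℝ) * J μ ((∑ i ∈ s, v i) / T) ≤ J μ (1 / 2) / J μ (1 / 4) * (T * J μ (S / T)) := by
      calc (T : ℝ) * J μ ((∑ i ∈ s, v i) / T) ≤ T * J μ (1 / 2) :=
            mul_le_mul_of_nonneg_left (hJA.trans h6) hT0.le
        _ = J μ (1 / 2) / J μ (1 / 4) * (T * J μ (1 / 4)) := by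
            rw [mul_left_comm, ← h7]
        _ ≤ J μ (1 / 2) / J μ (1 / 4) * (T * J μ (S / T)) :=
            mul_le_mul_of_nonneg_left (mul_le_mul_of_nonneg_left h5 hT0.le) hq
    have h9 : J μ (1 / 2) / J μ (1 / 4) * (T * J μ (S / T)) ≤ C₃ * ∑ i ∈ s.erase i₀, J μ (v i) := by
      calc J μ (1 / 2) / J μ (1 / 4) * (T * J μ (S / T)) ≤
            J μ (1 / 2) / J μ (1 / 4) * ∑ i ∈ s.erase i₀, J μ (v i) := mul_le_mul_of_nonneg_left hJS hq
        _ ≤ C₃ * ∑ i ∈ s.erase i₀, J μ (v i) := mul_le_mul_of_nonneg_right (by linarith) hsum0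
    linarith

end Pool.Agent.W_7d29a1_X40
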