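import Pool.Agent.W_7d29a1_X40.H3

/-!
MP_7d29a1_pr, STORM X. (H3) in the form of the tree: the share of one child in the cost of a window of `T` children is at most `ep`
for large `T`, up to `C₃` times the costs of the other children, `C₃` independent of `T`.
-/

namespace Pool.Agent.W_7d29a1_X40

open MeasureTheory ProbabilityTheory Filter Topology
open Pool.Agent.W_7d29a1_F Pool.Agent.W_7d29a1_G

variable {μ : Measure ℝ} [IsProbabilityMeasure μ]

/-- (H3) for the tree. `hN` is (N2) for small slopes, `hD` is (D2) for small slopes. -/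
theorem hJ_of (hμ : Pool.Agent.W_7d29a1_h47.EM μ) (hnd : Pool.Agent.W_7d29a1_h47.Nondeg μ)
    (hN : ∃ K a v₀ : ℝ, 0 < K ∧ 0 < a ∧ 0 < v₀ ∧ v₀ < 1 / 2 ∧
      ∀ v R : ℝ, 0 < v → 1 ≤ R → R * v ≤ v₀ → R ^ (1 + a) * J μ v ≤ K * J μ (R * v))
    (hD : ∃ K v₀ : ℝ, 0 < v₀ ∧ ∀ v : ℝ, 0 ≤ v → v ≤ v₀ → J μ (2 * v) ≤ K * J μ v) :
    ∃ C₃ : ℝ, 1 ≤ C₃ ∧ ∀ ep : ℝ, 0 < ep → ∃ T₀ : ℕ, ∀ T : ℕ, T₀ ≤ T → ∀ v : ℕ → ℝ, (∀ r < T, |v r| ≤ 1 / 2) →
      ∀ r < T, T * J μ ((∑ s ∈ Finset.range T, v s) / T) ≤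
        ep * J μ (v r) + C₃ * ∑ s ∈ (Finset.range T).erase r, J μ (v s) := by
  obtain ⟨K, a, v₀, hK, ha, hv₀, hv₁, hN⟩ := hN
  obtain ⟨D, v₂, hv₂, hD⟩ := hD
  obtain ⟨C₁, hC₁, hN'⟩ := n2_all hμ (C := K) (a := a) (v₀ := v₀) hK.le hv₀ hv₁.le ha.le (by
    intro u v hu huv hv
    have hv0 : 0 < v := hu.trans_le huv
    have hR : 1 ≤ v / u := by rwa [one_le_div hu]
    have e1 : v / u * u = v := by field_simp
    have h1 := hN u (v / u) hu hR (by rw [e1]; exact hv)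
    rw [e1] at h1
    have hp : 0 < (v / u) ^ (1 + a) := Real.rpow_pos_of_pos (by positivity) _
    have e2 : (u / v) ^ (1 + a) * (v / u) ^ (1 + a) = 1 := by
      rw [← Real.mul_rpow (by positivity) (by positivity)]
      have : u / v * (v / u) = 1 := by field_simp
      rw [this, Real.one_rpow]
    calc J μ u = (u / v) ^ (1 + a) * ((v / u) ^ (1 + a) * J μ u) := by rw [← mul_assoc, e2, one_mul]
      _ ≤ (u / v) ^ (1 + a) * (K * J μ v) := mul_le_mul_of_nonneg_left h1 (Real.rpow_nonneg (by positivity) _)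
      _ = K * (u / v) ^ (1 + a) * J μ v := by ring)
  obtain ⟨C₂, hC₂, hD'⟩ := d2_all hμ hnd (C := D) (v₀ := min v₂ (1 / 2)) (lt_min hv₂ (by norm_num)) (min_le_right _ _)
    (fun v h0 h1 => hD v h0 (h1.trans (min_le_left _ _)))
  have hJn : ∀ v : ℝ, 0 ≤ v → v ≤ 1 / 2 → 0 ≤ J μ v := fun v h0 h1 => J_nonneg hμ (by rw [abs_of_nonneg h0]; exact h1)
  obtain ⟨C₃, hC₃, h⟩ := h3 hμ hnd (C := max C₁ C₂) (a := a) (hC₁.trans (le_max_left _ _)) ha.le
    (fun u v hu huv hv => (hN' u v hu huv hv).trans (by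
      refine mul_le_mul_of_nonneg_right (mul_le_mul_of_nonneg_right (le_max_left _ _)
        (Real.rpow_nonneg (div_nonneg hu (hu.trans huv)) _)) (hJn v (hu.trans huv) hv)))
    (fun v h0 h1 => (hD' v h0 h1).trans (mul_le_mul_of_nonneg_right (le_max_right _ _) (hJn v h0 (by linarith))))
  refine ⟨C₃, hC₃, fun ep hep => ?_⟩
  have hlim : Tendsto (fun T : ℕ => C₃ * (T : ℝ) ^ (-a)) atTop (𝓝 0) := by
    have h1 := ((tendsto_rpow_neg_atTop ha).comp tendsto_natCast_atTop_atTop).const_mul C₃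
    rw [mul_zero] at h1
    exact h1
  obtain ⟨T₁, hT₁⟩ := eventually_atTop.1 (hlim.eventually (eventually_le_nhds hep))
  refine ⟨max T₁ 8, fun T hT v hv r hr => ?_⟩
  have h1 := h T ((le_max_right _ _).trans hT) (Finset.range T) v r (Finset.card_range T) (Finset.mem_range.2 hr)
    (fun i hi => hv i (Finset.mem_range.1 hi))
  refine h1.trans (add_le_add (mul_le_mul_of_nonneg_right (hT₁ T ((le_max_left _ _).trans hT)) (J_nonneg hμ (hv r hr))) le_rfl)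

end Pool.Agent.W_7d29a1_X40
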