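import Pool.Agent.W_7d29a1_X.Sub
import Pool.Agent.W_7d29a1_X40.H3

/-!
MP_7d29a1_pr, STORM X, (E3): exponential moments of the luck of a cell of the width of the cone, for ALL displacements, relative to a
small multiple of the rate `m J(v)`.
-/

namespace Pool.Agent.W_7d29a1_X40

open MeasureTheory ProbabilityTheory Filter Topology
open Pool.Agent.W_7d29a1_F Pool.Agent.W_7d29a1_h4g Pool.Agent.W_7d29a1_G Pool.Agent.W_7d29a1_L
open Pool.Agent.W_7d29a1_SR Pool.Agent.W_7d29a1_G20 Pool.Agent.W_7d29a1_X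

variable {μ : Measure ℝ} [IsProbabilityMeasure μ] {c C : ℝ} {n₀ : ℕ}

/-! ### The scale -/

/-- (D2), iterated. -/
theorem J_le_pow2 (hμ : Pool.Agent.W_7d29a1_h47.EM μ) {D : ℝ} (hD1 : 1 ≤ D)
    (hD : ∀ v : ℝ, 0 ≤ v → v ≤ 1 / 4 → J μ (2 * v) ≤ D * J μ v) (q : ℕ) :
    ∀ u v : ℝ, 0 ≤ u → u ≤ 1 / 2 → 0 ≤ v → v ≤ 1 / 2 → u ≤ 2 ^ q * v → J μ u ≤ D ^ q * J μ v := by
  induction q with
  | zero =>
    intro u v hu _ _ hv huv
    rw [pow_zero, one_mul] at huv ⊢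
    exact J_mono' hμ hu huv hv
  | succ q ih =>
    intro u v hu hu1 hv hv1 huv
    have h1 := ih (u / 2) v (by linarith) (by linarith) hv hv1 (by rw [pow_succ] at huv; linarith)
    have h2 := hD (u / 2) (by linarith) (by linarith)
    have e1 : 2 * (u / 2) = u := by ring
    rw [e1] at h2
    calc J μ u ≤ D * J μ (u / 2) := h2
      _ ≤ D * (D ^ q * J μ v) := mul_le_mul_of_nonneg_left h1 (by linarith)
      _ = D ^ (q + 1) * J μ v := by ring

theorem vA_half (hμ : Pool.Agent.W_7d29a1_h47.EM μ) (r : ℕ) : vA μ 1 r ≤ 2 * vA μ 1 (2 * r) := by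
  have h0 := vA_nonneg hμ zero_le_one r
  have h1 := vA_le hμ zero_le_one r
  have h2 := vA_mem (μ := μ) hμ zero_le_one r
  have h3 : 2 * J μ (vA μ 1 r / 2) ≤ J μ (vA μ 1 r) := by
    have := J_mul hμ (v := vA μ 1 r / 2) (t := 2) (by linarith) (by norm_num) (by linarith)
    rwa [mul_div_cancel₀ _ (by norm_num : (2 : ℝ) ≠ 0)] at this
  have h4 : vA μ 1 r / 2 ≤ vA μ 1 (2 * r) := by
    refine le_vA (by linarith) (by linarith) ?_
    have hr : (0 : ℝ) ≤ r := Nat.cast_nonneg r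
    have h5 : EE μ r ≤ EE μ (2 * r) := EE_mono (by omega)
    push_cast
    nlinarith [mul_le_mul_of_nonneg_left h3 hr]
  linarith

theorem vA_pow (hμ : Pool.Agent.W_7d29a1_h47.EM μ) (r : ℕ) : ∀ i : ℕ, vA μ 1 (2 ^ i * r) ≤ vA μ 1 r
  | 0 => by rw [pow_zero, one_mul]
  | i + 1 => by
    have e : 2 ^ (i + 1) * r = 2 * (2 ^ i * r) := by ring
    rw [e]
    exact (vA_two hμ zero_le_one _).trans (vA_pow hμ r i)

theorem wd_pow (hμ : Pool.Agent.W_7d29a1_h47.EM μ) (r i : ℕ) : wd μ (2 ^ i * r) ≤ 2 ^ i * wd μ r := by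
  unfold wd
  push_cast
  have h1 := vA_pow hμ r i
  have hr : (0 : ℝ) ≤ r := Nat.cast_nonneg r
  calc vA μ 1 (2 ^ i * r) * (2 ^ i * r) ≤ vA μ 1 r * (2 ^ i * r) := mul_le_mul_of_nonneg_right h1 (by positivity)
    _ = 2 ^ i * (vA μ 1 r * r) := by ring

/-! ### One class of displacements -/

/-- The sum over the cells of starts and the far cells of ends. -/
noncomputable def qc (μ : Measure ℝ) (w m : ℕ) (D₀ : ℤ) (θ : ℝ) (b N M : ℕ) (x₀ : ℤ) (η : Env) : ℝ :=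
  ∑ a ∈ Finset.range N, ∑ k ∈ (Finset.Icc (-(M : ℤ)) M).filter (fun k => b ≤ k.natAbs),
    Bk μ 0 w m D₀ k (sh (0, x₀ + (a : ℕ) * w) η) ^ θ

theorem qc_integrable (hμ : Pool.Agent.W_7d29a1_h47.EM μ) {w m : ℕ} (hw : 0 < w) (D₀ : ℤ) {θ : ℝ} (hθ : 0 ≤ θ)
    (b N M : ℕ) (x₀ : ℤ) : Integrable (qc μ w m D₀ θ b N M x₀) (law μ) := by
  unfold qc
  refine integrable_finsetSum _ fun a _ => integrable_finsetSum _ fun k _ => ?_
  exact ((Bk_dom (μ := μ) (s := 0) hw m D₀ k).comp_sh _).rpow_int hμ hθ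

theorem qc_nonneg {w m : ℕ} (hw : 0 < w) (D₀ : ℤ) {θ : ℝ} (b N M : ℕ) (x₀ : ℤ) (η : Env) :
    0 ≤ qc μ w m D₀ θ b N M x₀ η := by
  unfold qc
  exact Finset.sum_nonneg fun a _ => Finset.sum_nonneg fun k _ =>
    Real.rpow_nonneg ((Bk_dom (μ := μ) (s := 0) hw m D₀ k).nonneg _) _

theorem qc_int (hμ : Pool.Agent.W_7d29a1_h47.EM μ) {w m : ℕ} (hw : 0 < w) (D₀ : ℤ) {θ ρ Q : ℝ} (hθ : 0 ≤ θ)
    (hρ0 : 0 ≤ ρ) (hρ1 : ρ < 1) (hQ : 0 ≤ Q)
    (hB : ∀ k : ℤ, ∫ η, Bk μ 0 w m D₀ k η ^ θ ∂(law μ) ≤ Q * ρ ^ (2 * k.natAbs)) (b N M : ℕ) (x₀ : ℤ) :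
    ∫ η, qc μ w m D₀ θ b N M x₀ η ∂(law μ) ≤ N * (Q * ρ ^ b * (2 / (1 - ρ))) := by
  unfold qc
  have hI : ∀ (a : ℕ) (k : ℤ), Integrable (fun η => Bk μ 0 w m D₀ k (sh (0, x₀ + (a : ℕ) * w) η) ^ θ) (law μ) :=
    fun a k => ((Bk_dom (μ := μ) (s := 0) hw m D₀ k).comp_sh _).rpow_int hμ hθ
  rw [integral_finsetSum _ fun a _ => integrable_finsetSum _ fun k _ => hI a k]
  have h1 : ∀ a ∈ Finset.range N, ∫ η, ∑ k ∈ (Finset.Icc (-(M : ℤ)) M).filter (fun k => b ≤ k.natAbs),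
      Bk μ 0 w m D₀ k (sh (0, x₀ + (a : ℕ) * w) η) ^ θ ∂(law μ) ≤ Q * ρ ^ b * (2 / (1 - ρ)) := by
    intro a _
    rw [integral_finsetSum _ fun k _ => hI a k]
    have h2 : ∀ k ∈ (Finset.Icc (-(M : ℤ)) M).filter (fun k => b ≤ k.natAbs),
        ∫ η, Bk μ 0 w m D₀ k (sh (0, x₀ + (a : ℕ) * w) η) ^ θ ∂(law μ) ≤ Q * ρ ^ b * ρ ^ k.natAbs := by
      intro k hk
      have h3 := sh_integral (μ := μ) (g := fun η => Bk μ 0 w m D₀ k η ^ θ)
        ((Bk_dom (μ := μ) (s := 0) hw m D₀ k).meas.pow_const θ) (0, x₀ + (a : ℕ) * w)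
      rw [h3]
      refine (hB k).trans ?_
      rw [mul_assoc]
      refine mul_le_mul_of_nonneg_left ?_ hQ
      rw [two_mul, pow_add]
      exact mul_le_mul_of_nonneg_right (pow_le_pow_of_le_one hρ0 hρ1.le (Finset.mem_filter.1 hk).2) (pow_nonneg hρ0 _)
    refine (Finset.sum_le_sum h2).trans ?_
    rw [← Finset.mul_sum]
    refine mul_le_mul_of_nonneg_left ?_ (mul_nonneg hQ (pow_nonneg hρ0 _))
    refine le_trans ?_ (geom_abs hρ0 hρ1 M)
    exact Finset.sum_le_sum_of_subset_of_nonneg (Finset.filter_subset _ _) fun k _ _ => pow_nonneg hρ0 _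
  refine (Finset.sum_le_sum h1).trans ?_
  rw [Finset.sum_const, Finset.card_range, nsmul_eq_mul]

/-- Every weight of the class is one of the terms. -/
theorem W_le_qc {w m : ℕ} (hw : 0 < w) {D₀ : ℤ} (hD0 : 0 ≤ D₀) (hD1 : D₀ ≤ m) {θ : ℝ} (hθ : 0 ≤ θ) {b N M : ℕ}
    (hM : m + 1 ≤ M) {x₀ x y : ℤ} (hx0 : x₀ ≤ x) (hx1 : x < x₀ + N * w) (hy0 : 0 ≤ y) (hy1 : y ≤ m)
    (hb : ((b : ℤ) + 1) * w ≤ |y - D₀|) (η : Env) :
    W μ 0 η (0, x) m y ^ θ ≤ qc μ w m D₀ θ b N M x₀ η := by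
  have hw' : (0 : ℤ) < w := by exact_mod_cast hw
  obtain ⟨u, hu⟩ : ∃ u : ℕ, (u : ℤ) = x - x₀ := ⟨(x - x₀).toNat, Int.toNat_of_nonneg (by omega)⟩
  have hdm : w * (u / w) + u % w = u := Nat.div_add_mod u w
  have hmod : u % w < w := Nat.mod_lt _ hw
  obtain ⟨a, ha⟩ : ∃ a, a = u / w := ⟨_, rfl⟩
  obtain ⟨i, hi⟩ : ∃ i, i = u % w := ⟨_, rfl⟩
  rw [← ha, ← hi] at hdm
  rw [← hi] at hmod
  have hux : x = x₀ + (a : ℤ) * w + i := by
    have : ((w : ℤ) * a + i : ℤ) = u := by exact_mod_cast hdm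
    linarith [mul_comm (w : ℤ) a]
  have haN : a < N := by
    rw [ha, Nat.div_lt_iff_lt_mul hw]
    have : (u : ℤ) < N * w := by rw [hu]; linarith
    exact_mod_cast this
  obtain ⟨k, hk⟩ : ∃ k : ℤ, k = (y + i - D₀) / w := ⟨_, rfl⟩
  obtain ⟨l, hl⟩ : ∃ l : ℕ, (l : ℤ) = (y + i - D₀) % w :=
    ⟨((y + i - D₀) % w).toNat, Int.toNat_of_nonneg (Int.emod_nonneg _ hw'.ne')⟩
  have hlw : l < w := by
    have : (l : ℤ) < w := by rw [hl]; exact Int.emod_lt_of_pos _ hw'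
    exact_mod_cast this
  have hkl : D₀ + k * w + l - i = y := by
    rw [hl, hk]
    have := Int.mul_ediv_add_emod (y + i - D₀) w
    linarith [mul_comm ((y + i - D₀) / (w : ℤ)) (w : ℤ)]
  have hi' : (i : ℤ) < w := by exact_mod_cast hmod
  have hi0 : (0 : ℤ) ≤ i := Int.natCast_nonneg i
  have hl' : (l : ℤ) < w := by exact_mod_cast hlw
  have hl0 : (0 : ℤ) ≤ l := Int.natCast_nonneg l
  have hw1 : (1 : ℤ) ≤ w := by omega
  have hkM : -(M : ℤ) ≤ k ∧ k ≤ M := by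
    have hM' : (m : ℤ) + 1 ≤ M := by exact_mod_cast hM
    constructor
    · rw [hk, Int.le_ediv_iff_mul_le hw']
      nlinarith
    · have : k < (M : ℤ) + 1 := by
        rw [hk, Int.ediv_lt_iff_lt_mul hw']
        nlinarith
      omega
  have hkb : b ≤ k.natAbs := by
    rcases le_total 0 (y - D₀) with h1 | h1
    · rw [abs_of_nonneg h1] at hb
      have h2 : (b : ℤ) ≤ k := by
        rw [hk, Int.le_ediv_iff_mul_le hw']
        nlinarith
      omega
    · rw [abs_of_nonpos h1] at hb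
      have h2 : k < -(b : ℤ) := by
        rw [hk, Int.ediv_lt_iff_lt_mul hw']
        nlinarith
      omega
  have h1 : W μ 0 η (0, x) m y ≤ Bk μ 0 w m D₀ k (sh (0, x₀ + (a : ℕ) * w) η) := by
    refine le_trans ?_ (le_Bk_sh (μ := μ) (s := 0) m D₀ k η 0 (x₀ + (a : ℕ) * w) i hmod)
    have h2 := Finset.single_le_sum (f := fun l : ℕ => W μ 0 η (0, x₀ + (a : ℕ) * w + i) m (D₀ + k * w + l - i))
      (fun j _ => W_nonneg (μ := μ) (s := 0) η _ _ _) (Finset.mem_range.2 hlw)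
    refine le_trans (le_of_eq ?_) h2
    show W μ 0 η (0, x) m y = W μ 0 η (0, x₀ + (a : ℕ) * w + i) m (D₀ + k * w + l - i)
    rw [hkl, hux]
  refine (Real.rpow_le_rpow (W_nonneg (μ := μ) (s := 0) η _ _ _) h1 hθ).trans ?_
  unfold qc
  have h3 := Finset.single_le_sum (f := fun k : ℤ => Bk μ 0 w m D₀ k (sh (0, x₀ + (a : ℕ) * w) η) ^ θ)
    (s := (Finset.Icc (-(M : ℤ)) M).filter (fun k => b ≤ k.natAbs))
    (fun j _ => Real.rpow_nonneg ((Bk_dom (μ := μ) (s := 0) hw m D₀ j).nonneg _) _)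
    (Finset.mem_filter.2 ⟨Finset.mem_Icc.2 hkM, hkb⟩)
  have h4 := Finset.single_le_sum (f := fun a : ℕ => ∑ k ∈ (Finset.Icc (-(M : ℤ)) M).filter (fun k => b ≤ k.natAbs),
    Bk μ 0 w m D₀ k (sh (0, x₀ + (a : ℕ) * w) η) ^ θ) (s := Finset.range N)
    (fun j _ => Finset.sum_nonneg fun k _ => Real.rpow_nonneg ((Bk_dom (μ := μ) (s := 0) hw m D₀ k).nonneg _) _)
    (Finset.mem_range.2 haN)
  exact h3.trans h4

/-! ### The luck of a cell -/

/-- The largest value of `- X + c₁ m J` over the starts `(0, x)`, `x ∈ I`, and all displacements of time `m`; at least `0`. -/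
noncomputable def Lm (μ : Measure ℝ) (c₁ : ℝ) (m : ℕ) (I : Finset ℤ) (η : Env) : ℝ :=
  (I ×ˢ Finset.Icc (0 : ℤ) m).fold max 0 fun q => -X μ 0 η (0, q.1) m q.2 + c₁ * (m * J μ ((q.2 : ℝ) / m - 1 / 2))

omit [IsProbabilityMeasure μ] in
theorem Lm_nonneg (c₁ : ℝ) (m : ℕ) (I : Finset ℤ) (η : Env) : 0 ≤ Lm μ c₁ m I η := by
  unfold Lm
  exact (Finset.le_fold_max 0).2 (Or.inl le_rfl)

omit [IsProbabilityMeasure μ] in
theorem le_Lm {c₁ : ℝ} {m : ℕ} {I : Finset ℤ} (η : Env) {x y : ℤ} (hx : x ∈ I) (h0 : 0 ≤ y) (h1 : y ≤ m) :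
    -X μ 0 η (0, x) m y + c₁ * (m * J μ ((y : ℝ) / m - 1 / 2)) ≤ Lm μ c₁ m I η := by
  unfold Lm
  exact (Finset.le_fold_max _).2 (Or.inr ⟨(x, y), Finset.mem_product.2 ⟨hx, Finset.mem_Icc.2 ⟨h0, h1⟩⟩, le_rfl⟩)

omit [IsProbabilityMeasure μ] in
theorem Lm_le {c₁ : ℝ} {m : ℕ} {I : Finset ℤ} {η : Env} {L : ℝ} (hL : 0 ≤ L)
    (h : ∀ x ∈ I, ∀ y : ℤ, 0 ≤ y → y ≤ m → -X μ 0 η (0, x) m y + c₁ * (m * J μ ((y : ℝ) / m - 1 / 2)) ≤ L) :
    Lm μ c₁ m I η ≤ L := by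
  unfold Lm
  refine (Finset.fold_max_le L).2 ⟨hL, fun q hq => ?_⟩
  rw [Finset.mem_product, Finset.mem_Icc] at hq
  exact h q.1 hq.1 q.2 hq.2.1 hq.2.2

omit [IsProbabilityMeasure μ] in
theorem Sub_Lm (c₁ : ℝ) (m : ℕ) (I : Finset ℤ) : Sub fun η => Lm μ c₁ m I η := by
  unfold Lm
  have key : ∀ P : Finset (ℤ × ℤ), (∀ q ∈ P, 0 ≤ q.2 ∧ q.2 ≤ (m : ℤ)) →
      Sub fun η => P.fold max 0 fun q => -X μ 0 η (0, q.1) m q.2 + c₁ * (m * J μ ((q.2 : ℝ) / m - 1 / 2)) := by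
    classical
    intro P
    induction P using Finset.induction_on with
    | empty => intro _; simpa using Sub.const 0
    | @insert q P hq ih =>
      intro hP
      have h1 := hP q (Finset.mem_insert_self q P)
      have h2 := ih fun p hp => hP p (Finset.mem_insert_of_mem hp)
      have h3 : Sub fun η => -1 * X μ 0 η (0, q.1) m q.2 + c₁ * (m * J μ ((q.2 : ℝ) / m - 1 / 2)) :=
        ((Sub_X (μ := μ) (s := 0) (0, q.1) h1.1 h1.2).const_mul (-1)).add (Sub.const _)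
      have h4 := h3.max h2
      refine (congrArg Pool.Agent.W_7d29a1_F.Sub (funext fun η => ?_)).mp h4
      rw [Finset.fold_insert hq]
      congr 1
      ring
  exact key _ fun q hq => by
    rw [Finset.mem_product, Finset.mem_Icc] at hq
    exact hq.2

omit [IsProbabilityMeasure μ] in
theorem Lm_dep (c₁ : ℝ) (m : ℕ) (I : Finset ℤ) : DependsOn (fun η : Env => Lm μ c₁ m I η) (rows 0 m) := by
  intro η η' h
  show Lm μ c₁ m I η = Lm μ c₁ m I η'
  unfold Lm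
  refine Finset.fold_congr fun q _ => ?_
  have h1 : X μ 0 η (0, q.1) m q.2 = X μ 0 η' (0, q.1) m q.2 :=
    (Pool.Agent.W_7d29a1_F.X_dep_rows (μ := μ) (s := 0) (0, q.1) m q.2) fun p hp => h p (by simpa using hp)
  rw [h1]

omit [IsProbabilityMeasure μ] in
/-- The starts `(t, x₀ + x)`. -/
theorem le_Lm_sh {c₁ : ℝ} {m : ℕ} {I : Finset ℤ} (η : Env) (t x₀ : ℤ) {x y : ℤ} (hx : x ∈ I) (h0 : 0 ≤ y) (h1 : y ≤ m) :
    -X μ 0 η (t, x₀ + x) m y + c₁ * (m * J μ ((y : ℝ) / m - 1 / 2)) ≤ Lm μ c₁ m I (sh (t, x₀) η) := by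
  have h2 := le_Lm (μ := μ) (c₁ := c₁) (sh (t, x₀) η) hx h0 h1
  rw [X_sh] at h2
  have e : ((0, x) : Pt) + (t, x₀) = (t, x₀ + x) := Prod.ext (by simp) (by simp [add_comm])
  rwa [e] at h2


/-! ### The exponential moment -/

/-- The constants of one class. -/
theorem class_int (h : In μ c C n₀) : ∃ (b : ℕ) (G : ℝ), 1 ≤ b ∧ 1 ≤ G ∧ ∃ n₁ : ℕ, ∀ r : ℕ, n₁ ≤ r → Even r →
    0 < ⌊wd μ r⌋₊ ∧ ∀ K : ℕ, 1 ≤ K → ∀ (M : ℕ) (x₀ : ℤ),
      Real.exp K * ∫ η, qc μ ⌊wd μ r⌋₊ (K * r) (K * (r / 2 : ℕ)) (1 / (C * EE μ r)) (b * K) (2 * K + 1) M x₀ η ∂(law μ) ≤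
        G * (1 / 2) ^ K := by
  obtain ⟨ρ, A, hρ0, hρ1, hA, n1, hn1⟩ := Mom_of h
  have hg := one_le_two_div hρ0 hρ1
  obtain ⟨A1, hA1⟩ : ∃ A1 : ℝ, A1 = A * (2 / (1 - ρ)) := ⟨_, rfl⟩
  have hA11 : 1 ≤ A1 := by rw [hA1]; nlinarith
  have hpos : 0 < 1 / (4 * Real.exp 1 * A1) := by positivity
  obtain ⟨b, hb⟩ := exists_pow_lt_of_lt_one hpos hρ1
  refine ⟨b + 1, 3 * (2 / (1 - ρ)), by omega, by linarith, n1, fun r hr hre => ?_⟩
  obtain ⟨hw0, hM⟩ := hn1 r hr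
  refine ⟨hw0, fun K hK M x₀ => ?_⟩
  have hE1 := one_le_EE (μ := μ) r
  have hC1 := h.C1
  have hCE : 1 ≤ C * EE μ r := by nlinarith
  have hθ0 : 0 < 1 / (C * EE μ r) := by positivity
  have hθ1 : 1 / (C * EE μ r) ≤ 1 := by rw [div_le_one (by linarith)]; exact hCE
  have hd : ((r : ℤ) / 2) = ((r / 2 : ℕ) : ℤ) := by omega
  have h1 := Bk_iter h.em hθ0 hθ1 hw0 (d := (r : ℤ) / 2) (by omega) (by omega) hA hρ0 hρ1 hM hK
  rw [← hA1, hd] at h1
  have h2 := qc_int h.em hw0 ((K : ℤ) * (r / 2 : ℕ)) (θ := 1 / (C * EE μ r)) hθ0.le hρ0 hρ1 (Q := A1 ^ K)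
    (by positivity) h1 ((b + 1) * K) (2 * K + 1) M x₀
  have h3 : ρ ^ ((b + 1) * K) ≤ (1 / (4 * Real.exp 1 * A1)) ^ K := by
    rw [pow_mul]
    refine pow_le_pow_left₀ (pow_nonneg hρ0 _) ?_ K
    refine le_trans ?_ hb.le
    exact pow_le_pow_of_le_one hρ0 hρ1.le (Nat.le_succ b)
  have h4 : Real.exp K * (A1 ^ K * ρ ^ ((b + 1) * K)) ≤ (1 / 4) ^ K := by
    have e1 : Real.exp K = Real.exp 1 ^ K := by rw [← Real.exp_nat_mul, mul_one]
    calc Real.exp K * (A1 ^ K * ρ ^ ((b + 1) * K)) ≤ Real.exp 1 ^ K * (A1 ^ K * (1 / (4 * Real.exp 1 * A1)) ^ K) := by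
          rw [e1]
          exact mul_le_mul_of_nonneg_left (mul_le_mul_of_nonneg_left h3 (by positivity)) (by positivity)
      _ = (Real.exp 1 * (A1 * (1 / (4 * Real.exp 1 * A1)))) ^ K := by rw [mul_pow, mul_pow]
      _ = (1 / 4) ^ K := by
          congr 1
          have : Real.exp 1 ≠ 0 := (Real.exp_pos 1).ne'
          have : A1 ≠ 0 := by linarith
          field_simp
  have hK1 : (1 : ℝ) ≤ K := by exact_mod_cast hK
  have hK2 : (K : ℝ) ≤ 2 ^ K := by exact_mod_cast (Nat.lt_two_pow_self (n := K)).le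
  have h5 : (K : ℝ) * (1 / 4) ^ K ≤ (1 / 2) ^ K := by
    have e1 : ((1 : ℝ) / 2) ^ K = 2 ^ K * (1 / 4) ^ K := by rw [← mul_pow]; norm_num
    rw [e1]
    exact mul_le_mul_of_nonneg_right hK2 (by positivity)
  have hG0 : 0 ≤ 2 / (1 - ρ) := by linarith
  calc Real.exp K * ∫ η, qc μ ⌊wd μ r⌋₊ (K * r) (K * (r / 2 : ℕ)) (1 / (C * EE μ r)) ((b + 1) * K) (2 * K + 1) M x₀ η ∂(law μ)
      ≤ Real.exp K * (((2 * K + 1 : ℕ) : ℝ) * (A1 ^ K * ρ ^ ((b + 1) * K) * (2 / (1 - ρ)))) :=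
        mul_le_mul_of_nonneg_left h2 (Real.exp_pos _).le
    _ = ((2 * K + 1 : ℕ) : ℝ) * (2 / (1 - ρ)) * (Real.exp K * (A1 ^ K * ρ ^ ((b + 1) * K))) := by ring
    _ ≤ ((2 * K + 1 : ℕ) : ℝ) * (2 / (1 - ρ)) * (1 / 4) ^ K := mul_le_mul_of_nonneg_left h4 (by positivity)
    _ ≤ (3 * K) * (2 / (1 - ρ)) * (1 / 4) ^ K := by
        refine mul_le_mul_of_nonneg_right (mul_le_mul_of_nonneg_right ?_ hG0) (by positivity)
        push_cast
        linarith
    _ = 3 * (2 / (1 - ρ)) * (K * (1 / 4) ^ K) := by ring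
    _ ≤ 3 * (2 / (1 - ρ)) * (1 / 2) ^ K := mul_le_mul_of_nonneg_left h5 (by linarith)

/-- **(E3)** Exponential moments of the luck of a cell relative to a small multiple of the rate. -/
theorem lam_exp (h : In μ c C n₀) {D : ℝ} (hD1 : 1 ≤ D)
    (hD : ∀ v : ℝ, 0 ≤ v → v ≤ 1 / 4 → J μ (2 * v) ≤ D * J μ v) :
    ∃ c₁ A : ℝ, 0 < c₁ ∧ 1 ≤ A ∧ ∃ x₁ : ℕ, ∀ x, x₁ ≤ x → ∀ (z : ℝ) (I : Finset ℤ),
      (∀ i ∈ I, z < i ∧ (i : ℝ) ≤ z + wd μ (2 ^ x)) →
      ∫ η, Real.exp (Lm μ c₁ (2 ^ x) I η / (C * EE μ (2 ^ x))) ∂(law μ) ≤ A := by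
  obtain ⟨b, G, hb1, hG1, n1, hn1⟩ := class_int h
  obtain ⟨x₁, hx₁⟩ : ∃ x₁ : ℕ, x₁ = max n1 n₀ + 1 := ⟨_, rfl⟩
  obtain ⟨q, hq⟩ : ∃ q : ℕ, q = 4 * b := ⟨_, rfl⟩
  have hqb : (4 * b : ℝ) ≤ 2 ^ q := by
    have : 4 * b ≤ 2 ^ q := by rw [hq]; exact Nat.lt_two_pow_self.le
    exact_mod_cast this
  have hJ2 : 0 ≤ J μ (1 / 2) := J_nonneg h.em (by rw [abs_of_pos (by norm_num)])
  obtain ⟨Q, hQ⟩ : ∃ Q : ℝ, Q = D ^ q + 2 ^ x₁ * J μ (1 / 2) := ⟨_, rfl⟩
  have hDq : 1 ≤ D ^ q := one_le_pow₀ hD1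
  have hQ1 : 1 ≤ Q := by
    rw [hQ]
    have : 0 ≤ 2 ^ x₁ * J μ (1 / 2) := by positivity
    linarith
  have hC1 := h.C1
  have hC0 : 0 < C := by linarith
  have hres : 1 ≤ Real.exp 1 * C + 2 * G := by
    have h1 : 0 < Real.exp 1 * C := by positivity
    linarith
  refine ⟨C / Q, Real.exp 1 * C + 2 * G, by positivity, hres, x₁, fun x hx z I hI => ?_⟩
  obtain ⟨m, hm⟩ : ∃ m : ℕ, m = 2 ^ x := ⟨_, rfl⟩
  rw [← hm] at hI ⊢
  have hpow : ∀ k, x₁ ≤ k → n1 ≤ 2 ^ k ∧ n₀ ≤ 2 ^ k := by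
    intro k hk
    have : k < 2 ^ k := Nat.lt_two_pow_self
    omega
  have hmp : 0 < m := by rw [hm]; positivity
  have hm0 : (0 : ℝ) < m := by exact_mod_cast hmp
  have hEm1 := one_le_EE (μ := μ) m
  have hEm : 0 < C * EE μ m := by positivity
  -- the classes
  obtain ⟨r, hr⟩ : ∃ r : ℕ → ℕ, r = fun i => 2 ^ (x - i) := ⟨_, rfl⟩
  obtain ⟨F, hF⟩ : ∃ F : ℕ → Env → ℝ, F = fun i η => Real.exp ((2 ^ i : ℕ) : ℝ) *
      qc μ ⌊wd μ (r i)⌋₊ (2 ^ i * r i) ((2 ^ i : ℕ) * (r i / 2 : ℕ)) (1 / (C * EE μ (r i))) (b * 2 ^ i) (2 * 2 ^ i + 1)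
        (m + 1) ⌊z⌋ η := ⟨_, rfl⟩
  obtain ⟨U, hU⟩ : ∃ U : Env → ℝ, U = fun η =>
      Real.exp 1 * Real.exp (Mh μ 0 (1 / 2) 0 (wd μ m) z (4 * m) η / (C * EE μ m)) +
        ∑ i ∈ Finset.Icc 1 (x - x₁), F i η := ⟨_, rfl⟩
  have hri : ∀ i ∈ Finset.Icc 1 (x - x₁), n1 ≤ r i ∧ Even (r i) ∧ 2 ^ i * r i = m := by
    intro i hi
    rw [Finset.mem_Icc] at hi
    refine ⟨?_, ?_, ?_⟩
    · rw [hr]; exact (hpow (x - i) (by omega)).1
    · rw [hr]
      exact (Nat.even_pow.2 ⟨even_two, by omega⟩)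
    · rw [hr, hm]
      show 2 ^ i * 2 ^ (x - i) = 2 ^ x
      rw [← pow_add]
      congr 1
      omega
  have hF0 : ∀ i ∈ Finset.Icc 1 (x - x₁), ∀ η, 0 ≤ F i η := by
    intro i hi η
    rw [hF]
    obtain ⟨h1, h2, h3⟩ := hri i hi
    exact mul_nonneg (Real.exp_pos _).le (qc_nonneg (hn1 (r i) h1 h2).1 _ _ _ _ _ _)
  have hFi : ∀ i ∈ Finset.Icc 1 (x - x₁), Integrable (F i) (law μ) := by
    intro i hi
    rw [hF]
    obtain ⟨h1, h2, h3⟩ := hri i hi
    have hE1 := one_le_EE (μ := μ) (r i)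
    exact (qc_integrable h.em (hn1 (r i) h1 h2).1 _ (by positivity) _ _ _ _).const_mul _
  have hFint : ∀ i ∈ Finset.Icc 1 (x - x₁), ∫ η, F i η ∂(law μ) ≤ G * (1 / 2) ^ i := by
    intro i hi
    obtain ⟨h1, h2, h3⟩ := hri i hi
    have h4 := (hn1 (r i) h1 h2).2 (2 ^ i) Nat.one_le_two_pow (m + 1) ⌊z⌋
    rw [hF]
    simp only
    rw [integral_const_mul]
    refine h4.trans (mul_le_mul_of_nonneg_left ?_ (by linarith))
    exact pow_le_pow_of_le_one (by norm_num) (by norm_num) Nat.lt_two_pow_self.le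
  have hMS : Sub fun η => Mh μ 0 (1 / 2) 0 (wd μ m) z (4 * m) η := Sub_Mh
  have hMI : Integrable (fun η => Real.exp (Mh μ 0 (1 / 2) 0 (wd μ m) z (4 * m) η / (C * EE μ m))) (law μ) := by
    have e3 := (hMS.const_mul (1 / (C * EE μ m))).exp_int h.em
    refine (congrArg (fun f => Integrable f (law μ)) (funext fun η => ?_)).mp e3
    show Real.exp (1 / (C * EE μ m) * Mh μ 0 (1 / 2) 0 (wd μ m) z (4 * m) η) = _
    congr 1
    ring
  have hUI : Integrable U (law μ) := by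
    rw [hU]
    exact (hMI.const_mul _).add (integrable_finsetSum _ hFi)
  have hLI : Integrable (fun η => Real.exp (Lm μ (C / Q) m I η / (C * EE μ m))) (law μ) := by
    have e3 := ((Sub_Lm (μ := μ) (C / Q) m I).const_mul (1 / (C * EE μ m))).exp_int h.em
    refine (congrArg (fun f => Integrable f (law μ)) (funext fun η => ?_)).mp e3
    show Real.exp (1 / (C * EE μ m) * Lm μ (C / Q) m I η) = _
    congr 1
    ring
  -- the pointwise bound
  have hpt : ∀ η, Real.exp (Lm μ (C / Q) m I η / (C * EE μ m)) ≤ U η := by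
    intro η
    have hSF : 0 ≤ ∑ i ∈ Finset.Icc 1 (x - x₁), F i η := Finset.sum_nonneg fun i hi => hF0 i hi η
    have hM0 : 0 ≤ Mh μ 0 (1 / 2) 0 (wd μ m) z (4 * m) η := Mh_nonneg η
    have hM1 : 1 ≤ Real.exp (Mh μ 0 (1 / 2) 0 (wd μ m) z (4 * m) η / (C * EE μ m)) :=
      Real.one_le_exp (div_nonneg hM0 hEm.le)
    have he1 : 1 ≤ Real.exp 1 := Real.one_le_exp (by norm_num)
    have hU1 : 1 ≤ U η := by
      rw [hU]
      simp only
      nlinarith
    have hlog : 0 ≤ Real.log (U η) := Real.log_nonneg hU1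
    have key : Lm μ (C / Q) m I η ≤ C * EE μ m * Real.log (U η) := by
      refine Lm_le (mul_nonneg hEm.le hlog) fun a ha y hy0 hy1 => ?_
      obtain ⟨ha0, ha1⟩ := hI a ha
      obtain ⟨t, ht⟩ : ∃ t : ℝ, t = -X μ 0 η (0, a) m y + C / Q * (m * J μ ((y : ℝ) / m - 1 / 2)) := ⟨_, rfl⟩
      rw [← ht]
      suffices hs : Real.exp (t / (C * EE μ m)) ≤ U η by
        have h1 := (Real.le_log_iff_exp_le (by linarith)).2 hs
        rwa [div_le_iff₀ hEm, mul_comm] at h1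
      have hyR0 : (0 : ℝ) ≤ y := by exact_mod_cast hy0
      have hyR1 : (y : ℝ) ≤ m := by exact_mod_cast hy1
      obtain ⟨v, hv⟩ : ∃ v : ℝ, v = |(y : ℝ) / m - 1 / 2| := ⟨_, rfl⟩
      have hv0 : 0 ≤ v := by rw [hv]; exact abs_nonneg _
      have hv1 : v ≤ 1 / 2 := by
        rw [hv, abs_le]
        constructor
        · have : 0 ≤ (y : ℝ) / m := by positivity
          linarith
        · have : (y : ℝ) / m ≤ 1 := by rw [div_le_one hm0]; exact hyR1
          linarith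
      have hJv : J μ ((y : ℝ) / m - 1 / 2) = J μ v := by rw [hv, J_abs h.em]
      have hJv0 : 0 ≤ J μ v := J_nonneg h.em (by rw [abs_of_nonneg hv0]; exact hv1)
      rw [hJv] at ht
      classical
      obtain ⟨i, hi⟩ : ∃ i, (v ≤ 2 ^ q * vA μ 1 (r i) ∨ x - x₁ ≤ i) ∧
          ∀ j, j < i → ¬ (v ≤ 2 ^ q * vA μ 1 (r j) ∨ x - x₁ ≤ j) := by
        have hex : ∃ i, v ≤ 2 ^ q * vA μ 1 (r i) ∨ x - x₁ ≤ i := ⟨x - x₁, Or.inr le_rfl⟩
        exact ⟨Nat.find hex, Nat.find_spec hex, fun j hj => Nat.find_min hex hj⟩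
      obtain ⟨hi1, hi2⟩ := hi
      have hix : i ≤ x - x₁ := by
        by_contra hcon
        push Not at hcon
        exact hi2 (x - x₁) hcon (Or.inr le_rfl)
      have hmi : 2 ^ i * r i = m := by
        rw [hr, hm]
        show 2 ^ i * 2 ^ (x - i) = 2 ^ x
        rw [← pow_add]
        congr 1
        omega
      have hmiR : (2 : ℝ) ^ i * r i = m := by exact_mod_cast hmi
      have hEr1 := one_le_EE (μ := μ) (r i)
      have hErm : EE μ (r i) ≤ EE μ m := by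
        refine EE_mono ?_
        rw [← hmi]
        exact Nat.le_mul_of_pos_left _ (by positivity)
      -- the rate in the unit of the class
      have hcost : m * J μ v ≤ Q * (2 ^ i * EE μ (r i)) := by
        rcases hi1 with h1 | h1
        · have h2 := J_le_pow2 h.em hD1 hD q v (vA μ 1 (r i)) hv0 hv1 (vA_nonneg h.em zero_le_one _)
            (vA_le h.em zero_le_one _) h1
          have h3 := vA_mem (μ := μ) h.em zero_le_one (r i)
          rw [one_mul] at h3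
          calc (m : ℝ) * J μ v ≤ m * (D ^ q * J μ (vA μ 1 (r i))) := mul_le_mul_of_nonneg_left h2 hm0.le
            _ = D ^ q * (2 ^ i * (r i * J μ (vA μ 1 (r i)))) := by rw [← hmiR]; ring
            _ ≤ D ^ q * (2 ^ i * EE μ (r i)) :=
                mul_le_mul_of_nonneg_left (mul_le_mul_of_nonneg_left h3 (by positivity)) (by positivity)
            _ ≤ Q * (2 ^ i * EE μ (r i)) := by
                refine mul_le_mul_of_nonneg_right ?_ (by positivity)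
                rw [hQ]
                have : 0 ≤ 2 ^ x₁ * J μ (1 / 2) := by positivity
                linarith
        · have h2 : x - i = x₁ := by omega
          have h3 : (r i : ℝ) = 2 ^ x₁ := by rw [hr]; simp only [h2]; push_cast; rfl
          have h4 : J μ v ≤ J μ (1 / 2) := J_mono' h.em hv0 hv1 le_rfl
          calc (m : ℝ) * J μ v ≤ m * J μ (1 / 2) := mul_le_mul_of_nonneg_left h4 hm0.le
            _ = (2 ^ x₁ * J μ (1 / 2)) * (2 ^ i * 1) := by rw [← hmiR, h3]; ring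
            _ ≤ (2 ^ x₁ * J μ (1 / 2)) * (2 ^ i * EE μ (r i)) :=
                mul_le_mul_of_nonneg_left (mul_le_mul_of_nonneg_left hEr1 (by positivity)) (by positivity)
            _ ≤ Q * (2 ^ i * EE μ (r i)) := by
                refine mul_le_mul_of_nonneg_right ?_ (by positivity)
                rw [hQ]
                linarith
      have hcost' : C / Q * (m * J μ v) ≤ C * EE μ (r i) * 2 ^ i := by
        calc C / Q * (m * J μ v) ≤ C / Q * (Q * (2 ^ i * EE μ (r i))) :=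
              mul_le_mul_of_nonneg_left hcost (by positivity)
          _ = C * EE μ (r i) * 2 ^ i := by field_simp
      rcases Nat.eq_zero_or_pos i with h0 | h0
      · -- the cone
        have hri0 : r i = m := by rw [h0, pow_zero, one_mul] at hmi; rw [h0]; exact hmi
        rw [hri0, h0, pow_zero, mul_one] at hcost'
        have hX : -X μ 0 η (0, a) m y ≤ Mh μ 0 (1 / 2) 0 (wd μ m) z (4 * m) η := by
          have h1 := neg_X_le_V (μ := μ) (s := 0) η (0, a) hy0 hy1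
          refine h1.trans ?_
          have hbx : (((0, a), m) : (ℕ × ℤ) × ℕ) ∈ Bx (1 / 2) (wd μ m) z (4 * m) := by
            rw [mem_Bx (by norm_num) (by norm_num)]
            refine ⟨?_, ?_, ?_⟩
            · show 0 + m ≤ 4 * m
              omega
            · show z < (a : ℝ) - 1 / 2 * ((0 : ℕ) : ℝ)
              push_cast
              linarith
            · show (a : ℝ) - 1 / 2 * ((0 : ℕ) : ℝ) ≤ z + wd μ m
              push_cast
              linarith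
          have h2 := le_Mh (μ := μ) (s := 0) (h := 0) η hbx
          refine le_trans (le_of_eq ?_) h2
          show V μ 0 η (0, a) m = V μ (0 + 0) η (((0 : ℕ) : ℤ), a) m + m * kap μ 0 (1 / 2) 0
          unfold kap
          simp
        have ht2 : t / (C * EE μ m) ≤ 1 + Mh μ 0 (1 / 2) 0 (wd μ m) z (4 * m) η / (C * EE μ m) := by
          have e1 : 1 + Mh μ 0 (1 / 2) 0 (wd μ m) z (4 * m) η / (C * EE μ m) =
              (C * EE μ m + Mh μ 0 (1 / 2) 0 (wd μ m) z (4 * m) η) / (C * EE μ m) := by field_simp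
          rw [e1]
          refine div_le_div_of_nonneg_right ?_ hEm.le
          rw [ht]
          linarith
        refine (Real.exp_le_exp.2 ht2).trans ?_
        rw [Real.exp_add, hU]
        simp only
        linarith
      · -- far away
        have hiI : i ∈ Finset.Icc 1 (x - x₁) := Finset.mem_Icc.2 ⟨h0, hix⟩
        obtain ⟨hr1, hr2, -⟩ := hri i hiI
        have hw0 := (hn1 (r i) hr1 hr2).1
        have hEr : 0 < C * EE μ (r i) := by positivity
        rcases le_total t 0 with ht0 | ht0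
        · refine le_trans ?_ hU1
          rw [← Real.exp_zero]
          exact Real.exp_le_exp.2 (div_nonpos_of_nonpos_of_nonneg ht0 hEm.le)
        have h1 : t / (C * EE μ m) ≤ t / (C * EE μ (r i)) :=
          div_le_div_of_nonneg_left ht0 hEr (mul_le_mul_of_nonneg_left hErm hC0.le)
        refine (Real.exp_le_exp.2 h1).trans ?_
        have hWp := W_pos (μ := μ) (s := 0) η (0, a) hy0 hy1
        have h2 : Real.exp (t / (C * EE μ (r i))) ≤ Real.exp ((2 ^ i : ℕ) : ℝ) * W μ 0 η (0, a) m y ^ (1 / (C * EE μ (r i))) := by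
          have e1 : W μ 0 η (0, a) m y ^ (1 / (C * EE μ (r i))) = Real.exp (-X μ 0 η (0, a) m y / (C * EE μ (r i))) := by
            rw [Real.rpow_def_of_pos hWp]
            congr 1
            unfold X
            ring
          rw [e1, ← Real.exp_add]
          refine Real.exp_le_exp.2 ?_
          have e2 : ((2 ^ i : ℕ) : ℝ) + -X μ 0 η (0, a) m y / (C * EE μ (r i)) =
              (C * EE μ (r i) * 2 ^ i + -X μ 0 η (0, a) m y) / (C * EE μ (r i)) := by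
            push_cast
            field_simp
          rw [e2]
          refine div_le_div_of_nonneg_right ?_ hEr.le
          rw [ht]
          linarith
        refine h2.trans ?_
        -- the distance
        have hwd0 : 0 ≤ wd μ (r i) := by
          unfold wd
          exact mul_nonneg (vA_nonneg h.em zero_le_one _) (Nat.cast_nonneg _)
        have hfl : (⌊wd μ (r i)⌋₊ : ℝ) ≤ wd μ (r i) := Nat.floor_le hwd0
        have hfl2 : wd μ (r i) < ⌊wd μ (r i)⌋₊ + 1 := Nat.lt_floor_add_one _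
        obtain ⟨w, hw⟩ : ∃ w : ℕ, w = ⌊wd μ (r i)⌋₊ := ⟨_, rfl⟩
        rw [← hw] at hfl hfl2 hw0
        have hwR : (1 : ℝ) ≤ w := by exact_mod_cast hw0
        have hprev := hi2 (i - 1) (by omega)
        push Not at hprev
        have hvbig : 2 * b * wd μ (r i) * 2 ^ i ≤ v * m := by
          have e1 : r (i - 1) = 2 * r i := by
            rw [hr]
            show 2 ^ (x - (i - 1)) = 2 * 2 ^ (x - i)
            rw [← pow_succ']
            congr 1
            omega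
          have e2 := vA_half h.em (r i)
          rw [← e1] at e2
          have e3 : (0 : ℝ) ≤ (2 : ℝ) ^ q := by positivity
          have e4 : 2 * b * vA μ 1 (r i) ≤ v := by
            have e5 : 4 * b * vA μ 1 (r (i - 1)) ≤ 2 ^ q * vA μ 1 (r (i - 1)) :=
              mul_le_mul_of_nonneg_right hqb (vA_nonneg h.em zero_le_one _)
            have e6 : 2 * b * vA μ 1 (r i) ≤ 2 * b * (2 * vA μ 1 (r (i - 1))) :=
              mul_le_mul_of_nonneg_left e2 (by positivity)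
            linarith [hprev.1]
          calc 2 * b * wd μ (r i) * 2 ^ i = (2 * b * vA μ 1 (r i)) * m := by
                unfold wd
                rw [← hmiR]
                ring
            _ ≤ v * m := mul_le_mul_of_nonneg_right e4 hm0.le
        have hD₀ : (((2 ^ i : ℕ) * (r i / 2 : ℕ) : ℤ) : ℝ) = m / 2 := by
          obtain ⟨k, hk⟩ := hr2
          have e1 : r i / 2 = k := by omega
          have e2 : (m : ℝ) = 2 ^ i * (k + k) := by rw [← hmiR, hk]; push_cast; ring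
          rw [e1, e2]
          push_cast
          ring
        have hD₀' : (2 : ℤ) * ((2 ^ i : ℕ) * (r i / 2 : ℕ) : ℤ) = m := by
          have : ((2 * ((2 ^ i : ℕ) * (r i / 2 : ℕ) : ℤ) : ℤ) : ℝ) = ((m : ℤ) : ℝ) := by
            rw [Int.cast_mul, hD₀]
            push_cast
            ring
          exact_mod_cast this
        have hdist : (((b * 2 ^ i : ℕ) : ℤ) + 1) * (w : ℤ) ≤ |y - ((2 ^ i : ℕ) * (r i / 2 : ℕ) : ℤ)| := by
          have e1 : ((|y - ((2 ^ i : ℕ) * (r i / 2 : ℕ) : ℤ)| : ℤ) : ℝ) = v * m := by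
            rw [Int.cast_abs, Int.cast_sub, hD₀, hv, ← abs_of_pos hm0, ← abs_mul, abs_of_pos hm0]
            congr 1
            field_simp
          have e2 : (((((b * 2 ^ i : ℕ) : ℤ) + 1) * (w : ℤ) : ℤ) : ℝ) ≤ v * m := by
            push_cast
            have hb1R : (1 : ℝ) ≤ b := by exact_mod_cast hb1
            have hp1 : (1 : ℝ) ≤ 2 ^ i := one_le_pow₀ (by norm_num)
            have e3 : (1 : ℝ) ≤ b * 2 ^ i := by nlinarith
            calc ((b : ℝ) * 2 ^ i + 1) * w ≤ (2 * (b * 2 ^ i)) * w :=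
                  mul_le_mul_of_nonneg_right (by linarith) (by linarith)
              _ ≤ (2 * (b * 2 ^ i)) * wd μ (r i) := mul_le_mul_of_nonneg_left hfl (by positivity)
              _ = 2 * b * wd μ (r i) * 2 ^ i := by ring
              _ ≤ v * m := hvbig
          have e3 : (((((b * 2 ^ i : ℕ) : ℤ) + 1) * (w : ℤ) : ℤ) : ℝ) ≤
              ((|y - ((2 ^ i : ℕ) * (r i / 2 : ℕ) : ℤ)| : ℤ) : ℝ) := by rw [e1]; exact e2
          exact_mod_cast e3
        have hstart : a < ⌊z⌋ + ((2 * 2 ^ i + 1 : ℕ) : ℤ) * (w : ℤ) := by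
          have e1 : wd μ m ≤ 2 ^ i * wd μ (r i) := by rw [← hmi]; exact wd_pow h.em (r i) i
          have e2 : z < ⌊z⌋ + 1 := Int.lt_floor_add_one z
          have hp1 : (1 : ℝ) ≤ 2 ^ i := one_le_pow₀ (by norm_num)
          have e3 : (a : ℝ) < ((⌊z⌋ + ((2 * 2 ^ i + 1 : ℕ) : ℤ) * (w : ℤ) : ℤ) : ℝ) := by
            push_cast
            have e4 : (2 : ℝ) ^ i * wd μ (r i) ≤ 2 ^ i * (2 * w) :=
              mul_le_mul_of_nonneg_left (by linarith) (by positivity)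
            nlinarith
          exact_mod_cast e3
        have h3 := W_le_qc (μ := μ) (w := w) (m := m) hw0 (D₀ := ((2 ^ i : ℕ) * (r i / 2 : ℕ) : ℤ)) (by positivity)
          (by linarith [Int.natCast_nonneg m]) (θ := 1 / (C * EE μ (r i))) (by positivity) (b := b * 2 ^ i)
          (N := 2 * 2 ^ i + 1) (M := m + 1) le_rfl (x₀ := ⌊z⌋) (x := a) (y := y)
          (Int.floor_le_iff.2 (by linarith)) hstart hy0 hy1 hdist η
        have h4 : Real.exp ((2 ^ i : ℕ) : ℝ) * W μ 0 η (0, a) m y ^ (1 / (C * EE μ (r i))) ≤ F i η := by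
          rw [hF]
          simp only
          rw [hmi, ← hw]
          exact mul_le_mul_of_nonneg_left h3 (Real.exp_pos _).le
        refine h4.trans ?_
        have h5 := Finset.single_le_sum (f := fun j => F j η) (s := Finset.Icc 1 (x - x₁)) (fun j hj => hF0 j hj η) hiI
        rw [hU]
        simp only at h5 ⊢
        nlinarith
    have h1 : Lm μ (C / Q) m I η / (C * EE μ m) ≤ Real.log (U η) := by
      rw [div_le_iff₀ hEm, mul_comm]
      exact key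
    calc Real.exp (Lm μ (C / Q) m I η / (C * EE μ m)) ≤ Real.exp (Real.log (U η)) := Real.exp_le_exp.2 h1
      _ = U η := Real.exp_log (by linarith)
  refine (integral_mono hLI hUI hpt).trans ?_
  have hlk : ∫ η, Real.exp (Mh μ 0 (1 / 2) 0 (wd μ m) z (4 * m) η / (C * EE μ m)) ∂(law μ) ≤ C := by
    refine h.luck m (by rw [hm]; exact (hpow x hx).2) 0 z ?_
    rw [abs_zero, zero_mul]
    have := h.c0
    positivity
  have hsum : ∑ i ∈ Finset.Icc 1 (x - x₁), ∫ η, F i η ∂(law μ) ≤ 2 * G := by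
    refine (Finset.sum_le_sum hFint).trans ?_
    rw [← Finset.mul_sum]
    have h1 : ∑ i ∈ Finset.Icc 1 (x - x₁), ((1 : ℝ) / 2) ^ i ≤ ∑ i ∈ Finset.range (x - x₁ + 1), ((1 : ℝ) / 2) ^ i :=
      Finset.sum_le_sum_of_subset_of_nonneg (fun i hi => Finset.mem_range.2 (by rw [Finset.mem_Icc] at hi; omega))
        fun i _ _ => by positivity
    have h2 := sum_geometric_two_le (x - x₁ + 1)
    nlinarith
  rw [hU]
  simp only
  rw [integral_add (hMI.const_mul _) (integrable_finsetSum _ hFi), integral_const_mul, integral_finsetSum _ hFi]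
  have := mul_le_mul_of_nonneg_left hlk (Real.exp_pos 1).le
  linarith

/-- The tail of the luck of a cell. -/
theorem Lm_tail (hμ : Pool.Agent.W_7d29a1_h47.EM μ) {c₁ Y A : ℝ} (hY : 0 < Y) {m : ℕ} {I : Finset ℤ}
    (hA : ∫ η, Real.exp (Lm μ c₁ m I η / Y) ∂(law μ) ≤ A) (u : ℝ) :
    (law μ).real {η | u * Y ≤ Lm μ c₁ m I η} ≤ A * Real.exp (-u) := by
  have hLI : Integrable (fun η => Real.exp (Lm μ c₁ m I η / Y)) (law μ) := by
    have e3 := ((Sub_Lm (μ := μ) c₁ m I).const_mul (1 / Y)).exp_int hμ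
    refine (congrArg (fun f => Integrable f (law μ)) (funext fun η => ?_)).mp e3
    show Real.exp (1 / Y * Lm μ c₁ m I η) = _
    congr 1
    ring
  have h1 := mul_meas_ge_le_integral_of_nonneg (μ := law μ) (f := fun η => Real.exp (Lm μ c₁ m I η / Y))
    (Filter.Eventually.of_forall fun η => (Real.exp_pos _).le) hLI (Real.exp u)
  have h2 : {η | u * Y ≤ Lm μ c₁ m I η} ⊆ {η | Real.exp u ≤ Real.exp (Lm μ c₁ m I η / Y)} := by
    intro η hη
    refine Real.exp_le_exp.2 ?_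
    rw [le_div_iff₀ hY]
    exact hη
  have h3 := (mul_le_mul_of_nonneg_left (measureReal_mono (μ := law μ) h2 (measure_ne_top _ _))
    (Real.exp_pos u).le).trans (h1.trans hA)
  rw [Real.exp_neg, ← div_eq_mul_inv, le_div_iff₀ (Real.exp_pos _), mul_comm]
  exact h3

end Pool.Agent.W_7d29a1_X40
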